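import Pool.Agent.H.MP_c25739_lc.B

set_option autoImplicit false

namespace Pool.Agent.Results.MP_c25739_lc.Yes

open FirstOrder FirstOrder.Language Function

/-- Function symbols of the language of groups. -/
inductive GF : ℕ → Type
  | one : GF 0
  | inv : GF 1
  | mul : GF 2

/-- Function symbols of the language of arithmetic. -/
inductive NF : ℕ → Type
  | add : NF 2
  | mul : NF 2

def LG : FirstOrder.Language := ⟨GF, fun _ => Empty⟩
def LN : FirstOrder.Language := ⟨NF, fun _ => Empty⟩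

instance sG (G : Type) [Group G] : LG.Structure G where
  funMap f x := match f, x with
    | .one, _ => 1
    | .inv, x => (x 0)⁻¹
    | .mul, x => x 0 * x 1
  RelMap r := r.elim

instance : LN.Structure ℕ where
  funMap f x := match f, x with
    | .add, x => x 0 + x 1
    | .mul, x => x 0 * x 1
  RelMap r := r.elim

/-- First-order definable in `A` with parameters. -/
def Df (L : FirstOrder.Language.{0, 0}) (A : Type) [L.Structure A] {ι : Type}
    (P : (ι → A) → Prop) : Prop := (Set.univ : Set A).Definable L {v | P v}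

/-- `f : D → B` is (the coordinate map of) an interpretation of `B` in `A`. -/
def Interp (L L' : FirstOrder.Language.{0, 0}) (A B : Type) [L.Structure A] [L'.Structure B]
    {n : ℕ} (D : (Fin n → A) → Prop) (f : (Fin n → A) → B) : Prop :=
  Df L A D ∧ (∀ b, ∃ x, D x ∧ f x = b) ∧
  Df L A (fun p : Fin 2 × Fin n → A => (∀ i, D (curry p i)) ∧ f (curry p 0) = f (curry p 1)) ∧
  (∀ k (F : L'.Functions k), Df L A fun p : Option (Fin k) × Fin n → A => (∀ i, D (curry p i)) ∧
    Structure.funMap F (fun i => f (curry p (some i))) = f (curry p none)) ∧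
  ∀ k (r : L'.Relations k), Df L A fun p : Fin k × Fin n → A => (∀ i, D (curry p i)) ∧
    Structure.RelMap r fun i => f (curry p i)

/-- The composite coordinate map `g ∘ f` onto `A` is definable in `A`. -/
def Comp (L : FirstOrder.Language.{0, 0}) (A : Type) [L.Structure A] {B : Type} {n m : ℕ}
    (D : (Fin n → A) → Prop) (f : (Fin n → A) → B) (E : (Fin m → B) → Prop)
    (g : (Fin m → B) → A) : Prop :=
  Df L A fun p : Option (Fin m × Fin n) → A => (∀ i, D fun j => p (some (i, j))) ∧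
    E (fun i => f fun j => p (some (i, j))) ∧ g (fun i => f fun j => p (some (i, j))) = p none

def BiInt (L L' : FirstOrder.Language.{0, 0}) (A B : Type) [L.Structure A] [L'.Structure B] :
    Prop :=
  ∃ (n m : ℕ) (D : (Fin n → A) → Prop) (f : (Fin n → A) → B) (E : (Fin m → B) → Prop)
    (g : (Fin m → B) → A),
    Interp L L' A B D f ∧ Interp L' L B A E g ∧ Comp L A D f E g ∧ Comp L' B E g D f

open Pool.Agent.H.MP_c33acd_lc Pool.Agent.H.MP_c25739_lc

lemma df_of {L : FirstOrder.Language.{0, 0}} {A : Type} [L.Structure A] {ι γ : Type} [Finite γ]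
    (φ : L.Formula (γ ⊕ ι)) (c : γ → A) {P : (ι → A) → Prop}
    (h : ∀ v, φ.Realize (Sum.elim c v) ↔ P v) : Df L A P := by
  rw [Df, Set.definable_iff_exists_formula_sum]
  refine ⟨BoundedFormula.subst φ fun i => Term.var (Sum.map (fun j => ⟨c j, trivial⟩) id i), ?_⟩
  ext v
  refine (h v).symm.trans (Iff.trans ?_ BoundedFormula.realize_subst.symm)
  refine iff_of_eq ?_
  unfold Formula.Realize
  congr 1; ext i; cases i <;> rfl

lemma ar_df {α : Type} {P : (α → ℕ) → Prop} (h : Ar α P) : Df LN ℕ P := by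
  have : ∃ φ : LN.Formula α, ∀ v, φ.Realize v ↔ P v := by
    induction h with
    | add i j k => exact ⟨(Functions.apply₂ (L := LN) NF.add (Term.var i) (Term.var j)).equal
        (Term.var k), fun v => Iff.rfl⟩
    | mul i j k => exact ⟨(Functions.apply₂ (L := LN) NF.mul (Term.var i) (Term.var j)).equal
        (Term.var k), fun v => Iff.rfl⟩
    | not _ ih => obtain ⟨φ, h⟩ := ih; exact ⟨φ.not, fun v => by simp [h]⟩
    | and _ _ ih ih' =>
      obtain ⟨φ, h⟩ := ih
      obtain ⟨ψ, h'⟩ := ih'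
      exact ⟨φ ⊓ ψ, fun v => by simp [h, h']⟩
    | @ex0 α P _ ih =>
      obtain ⟨φ, h⟩ := ih
      refine ⟨Formula.iExs Unit (BoundedFormula.subst φ fun o =>
        Term.var (o.elim (Sum.inr ()) Sum.inl)), fun v => Formula.realize_iExs.trans ?_⟩
      have : ∀ x : Unit → ℕ, Formula.Realize (BoundedFormula.subst φ fun o =>
          Term.var (o.elim (Sum.inr ()) Sum.inl)) (Sum.elim v x) ↔
          P fun o => o.elim (x ()) v := fun x => by
        refine BoundedFormula.realize_subst.trans (Iff.trans (iff_of_eq ?_) (h _))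
        unfold Formula.Realize
        congr 1; ext o; cases o <;> rfl
      simp only [this]
      exact ⟨fun ⟨x, hx⟩ => ⟨_, hx⟩, fun ⟨x, hx⟩ => ⟨fun _ => x, hx⟩⟩
  obtain ⟨φ, hφ⟩ := this
  refine df_of (γ := Empty) (BoundedFormula.subst φ fun i => Term.var (Sum.inr i)) Empty.elim
    fun v => BoundedFormula.realize_subst.trans (hφ v)

def X : LS := ⟨LG, sG, GF.mul, fun _ _ _ => rfl⟩

lemma md_df {G ι γ : Type} [Group G] [Finite γ] {Q : Pr (γ ⊕ ι) Empty}
    (h : MD X CS (γ ⊕ ι) Empty Q) {a r : G} (hs : Std a r) (c : γ → G) {P : (ι → G) → Prop}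
    (hP : ∀ v, Q G a r (Sum.elim c v) Empty.elim ↔ P v) : Df LG G P := by
  obtain ⟨φ, hφ⟩ := h
  refine df_of (L := LG) (γ := Bool ⊕ γ) (ren (X := X) φ (Sum.elim (fun b => Sum.inl (Sum.inl b)) (Sum.elim
    (Sum.elim (fun b => Sum.inl (Sum.inr b)) Sum.inr) Empty.elim)))
    (Sum.elim (fun b => cond b a r) c) fun v => (Rl_ren (X := X) _ _ _ _).trans
      (Iff.trans (iff_of_eq ?_) ((hφ G a r hs _ _).trans (hP v)))
  congr 1; ext i
  rcases i with i | (i | i) | i
  · rfl
  · rfl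
  · rfl
  · exact i.elim

lemma univ_alls {L : FirstOrder.Language.{0, 0}} {α : Type} : ∀ {k : ℕ} {φ : L.BoundedFormula α k},
    φ.IsUniversal → BoundedFormula.IsUniversal φ.alls
  | 0, _, h => h
  | _ + 1, φ, h => univ_alls (φ := φ.all) h.all

lemma word_term {k : ℕ} (w : FreeGroup (Fin k)) : ∃ τ : LG.Term (Empty ⊕ Fin k),
    ∀ (K : Type) [Group K] (u : Empty → K) (v : Fin k → K),
      τ.realize (Sum.elim u v) = FreeGroup.lift v w := by
  induction w using FreeGroup.induction_on with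
  | C1 => exact ⟨Constants.term (L := LG) GF.one, fun K _ u v => by rw [map_one]; rfl⟩
  | of i => exact ⟨Term.var (Sum.inr i), fun K _ u v => by simp⟩
  | inv_of i ih =>
    obtain ⟨τ, h⟩ := ih
    exact ⟨Functions.apply₁ (L := LG) GF.inv τ, fun K _ u v => by
      rw [map_inv, ← h K u v, Term.realize_functions_apply₁]; rfl⟩
  | mul x y hx hy =>
    obtain ⟨τ, h⟩ := hx
    obtain ⟨τ', h'⟩ := hy
    exact ⟨Functions.apply₂ (L := LG) GF.mul τ τ', fun K _ u v => by
      rw [map_mul, ← h K u v, ← h' K u v, Term.realize_functions_apply₂]; rfl⟩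

lemma discr {G M : Type} [Group G] [Group M]
    (h : ∀ φ : LG.Sentence, BoundedFormula.IsUniversal φ → M ⊨ φ → G ⊨ φ) {k : ℕ}
    (p : FreeGroup (Fin k) →* G) (S : Finset (FreeGroup (Fin k))) :
    ∃ f : FreeGroup (Fin k) →* M, ∀ w ∈ S, p w = 1 ↔ f w = 1 := by
  classical
  obtain ⟨φ, h1, h2⟩ : ∃ φ : LG.BoundedFormula Empty k, φ.IsQF ∧ ∀ (K : Type) [Group K]
      (u : Empty → K) (v : Fin k → K),
      φ.Realize u v ↔ ∀ w ∈ S, p w = 1 ↔ FreeGroup.lift v w = 1 := by
    induction S using Finset.induction_on with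
    | empty => exact ⟨⊤, BoundedFormula.IsQF.top, by simp⟩
    | insert w S _ ih =>
      obtain ⟨φ, h1, h2⟩ := ih
      obtain ⟨τ, h⟩ := word_term w
      obtain ⟨τ', h'⟩ := word_term (1 : FreeGroup (Fin k))
      by_cases hw : p w = 1
      · exact ⟨τ.bdEqual τ' ⊓ φ, (BoundedFormula.IsAtomic.equal _ _).isQF.inf h1,
          fun K _ u v => by simp [h, h', h2, hw]⟩
      · exact ⟨(τ.bdEqual τ').not ⊓ φ, (BoundedFormula.IsAtomic.equal _ _).isQF.not.inf h1,
          fun K _ u v => by simp [h, h', h2, hw]⟩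
  by_contra hc
  have := h φ.not.alls (univ_alls h1.not.isUniversal) (BoundedFormula.realize_alls.mpr fun v =>
    BoundedFormula.realize_not.mpr fun hv => hc ⟨_, (h2 _ _ _).mp hv⟩)
  refine BoundedFormula.realize_not.mp (BoundedFormula.realize_alls.mp this
    fun i => p (FreeGroup.of i)) ((h2 _ _ _).mpr fun w _ => ?_)
  rw [show FreeGroup.lift (fun i => p (FreeGroup.of i)) = p from FreeGroup.ext_hom _ _ (by simp)]

theorem result (G : Type) [Group G] (fg : Group.FG G) (na : ∃ x y : G, x * y ≠ y * x)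
    (_ : derivedSeries G 2 = ⊥)
    (rigid : ∃ n : ℕ, 2 ≤ n ∧ ∀ φ : LG.Sentence, BoundedFormula.IsUniversal φ →
      (G ⊨ φ ↔ (FreeGroup (Fin n) ⧸ derivedSeries (FreeGroup (Fin n)) 2) ⊨ φ)) :
    BiInt LG LN G ℕ := by
  classical
  obtain ⟨n', -, hu⟩ := rigid
  obtain ⟨α, _, p0, hp0⟩ := Group.fg_iff_exists_freeGroup_hom_surjective_finite.mp fg
  obtain ⟨n, ⟨e⟩⟩ := Finite.exists_equiv_fin α
  let p : FreeGroup (Fin n) →* G := p0.comp (FreeGroup.freeGroupCongr e).symm
  have hp : Surjective p := hp0.comp (FreeGroup.freeGroupCongr e).symm.surjective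
  obtain ⟨hk, a, r, hs, hev⟩ := main p hp na (discr (fun φ h => (hu φ h).mpr) p)
  obtain ⟨r0, hr⟩ := hp r
  let lg : G → ℕ := fun y => if h : ∃ m : ℕ, y = r ^ m then h.choose else 0
  have hl : ∀ m : ℕ, lg (r ^ m) = m := fun m => by
    have h : ∃ j : ℕ, r ^ m = r ^ j := ⟨m, rfl⟩
    simp only [lg, dif_pos h]
    exact (hs.pow_inj.mp h.choose_spec).symm
  have hq : ∀ {α : Type} {u v : (α → ℕ) → FreeGroup (Fin n)}, FT n α u → FT n α v →
      Ar α fun w => p (u w) = p (v w) :=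
    fun hu hv => (ar_ker p hk (hu.inv.mul hv)).congr fun w => by
      rw [map_mul, map_inv, inv_mul_eq_one]
  refine ⟨1, 1, fun x => ∃ m : ℕ, x 0 = r ^ m, fun x => lg (x 0), fun _ => True,
    fun x => p (dec n (x 0)), ⟨?_, fun b => ⟨fun _ => r ^ b, ⟨b, rfl⟩, hl b⟩, ?_,
    ?_, fun _ r => r.elim⟩, ⟨ar_df (Ar.const _), fun g => ?_, ?_, ?_, fun _ r => r.elim⟩, ?_, ?_⟩
  · exact md_df (γ := Empty) (MD.exN (P := fun _ _ _ r m v _ => v (Sum.inr 0) = r ^ m)
      (MD.eq (MT.var _) (MT.num none))) hs Empty.elim fun v => Iff.rfl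
  · refine md_df (γ := Empty) (MD.exN (P := fun _ _ _ r m v _ => v (Sum.inr (0, 0)) = r ^ m ∧
      v (Sum.inr (1, 0)) = r ^ m) ((MD.eq (MT.var _) (MT.num none)).and
      (MD.eq (MT.var _) (MT.num none)))) hs Empty.elim fun v => ?_
    simp only [Fin.forall_fin_two, curry_apply, Sum.elim_inr]
    constructor
    · rintro ⟨m, h1, h2⟩; exact ⟨⟨⟨m, h1⟩, m, h2⟩, by rw [h1, h2]⟩
    · rintro ⟨⟨⟨m, h1⟩, m', h2⟩, h⟩
      rw [h1, h2, hl, hl] at h
      exact ⟨m, h1, h ▸ h2⟩
  · have key : ∀ f : ℕ → ℕ → ℕ, NT (Option (Option Empty)) (fun w => f (w (some none)) (w none)) →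
        Df LG (G) fun p : Option (Fin 2) × Fin 1 → G =>
          (∀ i, ∃ m : ℕ, curry p i 0 = r ^ m) ∧
            f (lg (curry p (some 0) 0)) (lg (curry p (some 1) 0)) = lg (curry p none 0) := by
      intro f hf
      refine md_df (γ := Empty) (MD.exN (P := fun _ _ _ r m v _ => ∃ m' : ℕ,
        v (Sum.inr (some 0, 0)) = r ^ m ∧ v (Sum.inr (some 1, 0)) = r ^ m' ∧
        v (Sum.inr (none, 0)) = r ^ f m m') (MD.exN ((MD.eq (MT.var _) (MT.num (some none))).and
        ((MD.eq (MT.var _) (MT.num none)).and (MD.eq (MT.var _) (MT.pow hf)))))) hs Empty.elim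
        fun v => ?_
      simp only [Option.forall, Fin.forall_fin_two, curry_apply, Sum.elim_inr]
      constructor
      · rintro ⟨m, m', h1, h2, h3⟩
        exact ⟨⟨⟨_, h3⟩, ⟨_, h1⟩, _, h2⟩, by rw [h1, h2, h3, hl, hl, hl]⟩
      · rintro ⟨⟨⟨m3, h3⟩, ⟨m, h1⟩, m', h2⟩, h⟩
        rw [h1, h2, h3, hl, hl, hl] at h
        exact ⟨m, m', h1, h2, h ▸ h3⟩
    intro k F
    cases F
    · exact key (· + ·) ((NT.var _).add (NT.var _))
    · exact key (· * ·) ((NT.var _).mul (NT.var _))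
  · obtain ⟨w, rfl⟩ := hp g
    obtain ⟨m, rfl⟩ := dec_surj w
    exact ⟨fun _ => m, trivial, rfl⟩
  · exact ar_df ((hq (FT.dec (NT.var (0, 0))) (FT.dec (NT.var (1, 0)))).congr fun v =>
      ⟨fun h => ⟨fun _ => trivial, h⟩, fun h => h.2⟩)
  · intro k F
    cases F
    · exact ar_df ((hq (FT.const 1) (FT.dec (NT.var (none, 0)))).congr fun v => by
        rw [map_one]; exact ⟨fun h => ⟨fun _ => trivial, h⟩, fun h => h.2⟩)
    · exact ar_df ((hq (FT.dec (NT.var (some 0, 0))).inv (FT.dec (NT.var (none, 0)))).congr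
        fun v => by rw [map_inv]; exact ⟨fun h => ⟨fun _ => trivial, h⟩, fun h => h.2⟩)
    · exact ar_df ((hq ((FT.dec (NT.var (some 0, 0))).mul (FT.dec (NT.var (some 1, 0))))
        (FT.dec (NT.var (none, 0)))).congr fun v => by
        rw [map_mul]; exact ⟨fun h => ⟨fun _ => trivial, h⟩, fun h => h.2⟩)
  · refine md_df (γ := Fin n) (MD.exN (P := fun _ _ a r m v _ =>
      v (Sum.inr (some (0, 0))) = r ^ m ∧ Ev2 a r
        (2 * n + 2) (fun i => lt n (fun j => v (Sum.inl j)) i) m (v (Sum.inr none)))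
      ((MD.eq (MT.var _) (MT.num none)).and (D_Ev2 _
        (MT.lt fun _ => MT.var _) (NT.var none) (MT.var _)))) hs
      (fun j => p (FreeGroup.of j)) fun v => ?_
    refine (exists_congr fun m => and_congr_right fun _ => hev m _).trans ?_
    simp only [Fin.forall_fin_one, Sum.elim_inr, true_and]
    constructor
    · rintro ⟨m, h1, h2⟩; exact ⟨⟨m, h1⟩, by rw [h1, hl, h2]⟩
    · rintro ⟨⟨m, h1⟩, h2⟩
      rw [h1, hl] at h2
      exact ⟨m, h1, h2.symm⟩
  · refine ar_df ((hq (FT.dec (NT.var (some (0, 0)))) (FT.pow r0 (NT.var none))).congr fun v => ?_)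
    rw [map_pow, hr]
    constructor
    · intro h; exact ⟨fun _ => trivial, ⟨_, h⟩, by simp only [h, hl]⟩
    · rintro ⟨-, ⟨m, h1⟩, h2⟩
      simp only [h1, hl] at h2
      rw [← h2]; exact h1

end Pool.Agent.Results.MP_c25739_lc.Yes
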